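import Mathlib
import Pool.Agent.H9.HI

namespace Pool.Agent.Results.MP_913bbb_co.Full

/-- Any two distinct neighbours of a vertex have different degrees. -/
def HighlyIrregular {V : Type} (G : SimpleGraph V) : Prop :=
  ∀ v x y, G.Adj v x → G.Adj v y → x ≠ y → (G.neighborSet x).ncard ≠ (G.neighborSet y).ncard

/-- There is a highly irregular tree of order `n` with independence number `a`. -/
def Occurs (n a : ℕ) : Prop :=
  ∃ (V : Type) (_ : Fintype V) (G : SimpleGraph V),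
    Fintype.card V = n ∧ G.IsTree ∧ HighlyIrregular G ∧ G.indepNum = a

open Pool.Agent.H9.HI in
theorem result : (∀ n a, 2 ≤ n → Occurs n a → 127 * a + 22 ≤ 79 * n) ∧ Occurs 26 16 ∧
    (∀ m, Occurs (100 + 254 * m) (62 + 158 * m)) ∧
    IsLUB {x : ℝ | ∃ n a : ℕ, 2 ≤ n ∧ Occurs n a ∧ x = a / n} (79 / 127) := by
  have h1 : ∀ n a, 2 ≤ n → Occurs n a → 127 * a + 22 ≤ 79 * n := by
    rintro _ _ hn ⟨V, _, G, rfl, h1, h2, rfl⟩
    have := Fintype.one_lt_card_iff_nontrivial.1 hn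
    exact upper h1 h2
  have h2 : ∀ n a, 2 ≤ n → 79 * n < 127 * (a + 1) + 22 → (∃ (V : Type) (_ : Fintype V)
      (G : SimpleGraph V), Fintype.card V = n ∧ G.IsTree ∧ HIrr G ∧ a ≤ G.indepNum) →
      Occurs n a := by
    rintro n a hn q ⟨V, _, G, e, p1, p2, p3⟩
    have := h1 n _ hn ⟨V, _, G, e, p1, p2, rfl⟩
    exact ⟨V, _, G, e, p1, p2, by omega⟩
  have h3 : ∀ m, Occurs (100 + 254 * m) (62 + 158 * m) := fun m =>
    h2 _ _ (by omega) (by omega) (fam2 m)
  refine ⟨h1, h2 _ _ (by omega) (by omega) small, h3, ?_, fun c hc => ?_⟩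
  · rintro _ ⟨n, a, hn, h, rfl⟩
    have : (127 * a + 22 : ℝ) ≤ 79 * n := by exact_mod_cast h1 n a hn h
    rw [div_le_div_iff₀ (by positivity) (by norm_num)]
    linarith
  · by_contra q
    obtain ⟨m, hm⟩ := exists_nat_gt (1 / (79 / 127 - c))
    have p : 0 < 79 / 127 - c := by linarith
    have := hc ⟨_, _, by omega, h3 m, rfl⟩
    rw [div_le_iff₀ (by positivity)] at this
    rw [div_lt_iff₀ p] at hm
    push_cast at this
    nlinarith

end Pool.Agent.Results.MP_913bbb_co.Full
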